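import Mathlib

/-!
# Counting eigenvalues of real symmetric matrices
-/

set_option autoImplicit false

open scoped BigOperators

namespace Pool.Agent.H695R3.AN.Count

variable {n : Type*} [Fintype n] [DecidableEq n]

/-- the coefficient in the eigenbasis -/
noncomputable def co {A : Matrix n n ℝ} (hA : A.IsHermitian) (i : n) (f : n → ℝ) : ℝ :=
  ∑ x, hA.eigenvectorBasis i x * f x

theorem inner_eq (u v : EuclideanSpace ℝ n) : inner ℝ u v = ∑ x, u x * v x := by
  rw [PiLp.inner_apply]
  refine Finset.sum_congr rfl fun x _ => ?_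
  rw [real_inner_comm]
  simp [mul_comm]

theorem co_eq {A : Matrix n n ℝ} (hA : A.IsHermitian) (i : n) (f : n → ℝ) :
    co hA i f = inner ℝ (hA.eigenvectorBasis i) (WithLp.toLp 2 f) := by
  rw [inner_eq]
  rfl

theorem co_mulVec {A : Matrix n n ℝ} (hA : A.IsHermitian) (i : n) (f : n → ℝ) :
    co hA i (A.mulVec f) = hA.eigenvalues i * co hA i f := by
  have h1 : co hA i (A.mulVec f) = dotProduct (hA.eigenvectorBasis i : n → ℝ) (A.mulVec f) := rfl
  have hs : A.transpose = A := by
    have := hA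
    rw [Matrix.IsHermitian, Matrix.conjTranspose_eq_transpose_of_trivial] at this
    exact this
  have h2 := hA.mulVec_eigenvectorBasis i
  rw [h1, Matrix.dotProduct_mulVec, ← Matrix.mulVec_transpose, hs, h2, smul_dotProduct]
  rfl

theorem form_eq {A : Matrix n n ℝ} (hA : A.IsHermitian) (f : n → ℝ) :
    ∑ x, f x * A.mulVec f x = ∑ i, hA.eigenvalues i * co hA i f ^ 2 := by
  have h1 := hA.eigenvectorBasis.sum_inner_mul_inner (WithLp.toLp 2 f) (WithLp.toLp 2 (A.mulVec f))
  rw [inner_eq] at h1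
  have h2 : ∑ x, f x * A.mulVec f x = ∑ x, (WithLp.toLp 2 f : EuclideanSpace ℝ n) x *
    (WithLp.toLp 2 (A.mulVec f) : EuclideanSpace ℝ n) x := rfl
  rw [h2, ← h1]
  refine Finset.sum_congr rfl fun i _ => ?_
  rw [real_inner_comm, ← co_eq, ← co_eq, co_mulVec]
  ring

theorem norm_eq {A : Matrix n n ℝ} (hA : A.IsHermitian) (f : n → ℝ) :
    ∑ x, f x ^ 2 = ∑ i, co hA i f ^ 2 := by
  have h1 := hA.eigenvectorBasis.sum_inner_mul_inner (WithLp.toLp 2 f) (WithLp.toLp 2 f)
  rw [inner_eq] at h1
  have h2 : ∑ x, f x ^ 2 = ∑ x, (WithLp.toLp 2 f : EuclideanSpace ℝ n) x *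
    (WithLp.toLp 2 f : EuclideanSpace ℝ n) x := Finset.sum_congr rfl fun x _ => sq (f x)
  rw [h2, ← h1]
  refine Finset.sum_congr rfl fun i _ => ?_
  rw [real_inner_comm, ← co_eq]
  ring

/-- linear version -/
noncomputable def coL {A : Matrix n n ℝ} (hA : A.IsHermitian) (S : Finset n) :
    (n → ℝ) →ₗ[ℝ] (S → ℝ) where
  toFun f := fun i => co hA i.1 f
  map_add' f g := by
    funext i
    show co hA i.1 (f + g) = co hA i.1 f + co hA i.1 g
    unfold co
    rw [← Finset.sum_add_distrib]
    exact Finset.sum_congr rfl fun x _ => by rw [Pi.add_apply]; ring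
  map_smul' c f := by
    funext i
    show co hA i.1 (c • f) = c * co hA i.1 f
    unfold co
    rw [Finset.mul_sum]
    exact Finset.sum_congr rfl fun x _ => by rw [Pi.smul_apply, smul_eq_mul]; ring

/-- the number of eigenvalues at least `t` bounds the dimension of the subspaces on which the
form is at least `t` -/
theorem le_count {A : Matrix n n ℝ} (hA : A.IsHermitian) (t : ℝ) (W : Submodule ℝ (n → ℝ))
    (hW : ∀ f ∈ W, t * ∑ x, f x ^ 2 ≤ ∑ x, f x * A.mulVec f x) :
    Module.finrank ℝ W ≤ (Finset.univ.filter fun i => t ≤ hA.eigenvalues i).card := by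
  classical
  set S := Finset.univ.filter fun i => t ≤ hA.eigenvalues i with hS
  by_contra hlt
  push Not at hlt
  have h1 : Module.finrank ℝ (S → ℝ) < Module.finrank ℝ W := by
    rw [Module.finrank_fintype_fun_eq_card, Fintype.card_coe]
    exact hlt
  have h2 := LinearMap.ker_ne_bot_of_finrank_lt (f := (coL hA S).comp W.subtype) h1
  obtain ⟨w, hw, hw0⟩ := (Submodule.ne_bot_iff _).1 h2
  set f : n → ℝ := w.1 with hf
  have hf0 : f ≠ 0 := by
    intro h
    apply hw0
    exact Subtype.ext h
  have hco : ∀ i ∈ S, co hA i f = 0 := by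
    intro i hi
    have h3 := LinearMap.mem_ker.1 hw
    have h4 := congrFun h3 ⟨i, hi⟩
    exact h4
  have h3 := hW f w.2
  rw [form_eq hA, norm_eq hA, Finset.mul_sum] at h3
  -- some coefficient is nonzero
  have h4 : ∃ i, co hA i f ≠ 0 := by
    by_contra h
    push Not at h
    apply hf0
    have h5 := norm_eq hA f
    have h5' : ∑ i, co hA i f ^ 2 = 0 := Finset.sum_eq_zero fun i _ => by rw [h i]; norm_num
    rw [h5'] at h5
    funext x
    have h6 := (Finset.sum_eq_zero_iff_of_nonneg fun x _ => sq_nonneg (f x)).1 h5 x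
      (Finset.mem_univ x)
    exact pow_eq_zero_iff two_ne_zero |>.1 h6
  obtain ⟨i, hi⟩ := h4
  have h5 : ∑ i, hA.eigenvalues i * co hA i f ^ 2 < ∑ i, t * co hA i f ^ 2 := by
    apply Finset.sum_lt_sum
    · intro j _
      by_cases hj : j ∈ S
      · rw [hco j hj]; simp
      · have h6 : hA.eigenvalues j < t := by
          by_contra h
          exact hj (Finset.mem_filter.2 ⟨Finset.mem_univ j, not_lt.1 h⟩)
        exact mul_le_mul_of_nonneg_right h6.le (sq_nonneg _)
    · refine ⟨i, Finset.mem_univ i, ?_⟩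
      have hiS : i ∉ S := fun h => hi (hco i h)
      have h6 : hA.eigenvalues i < t := by
        by_contra h
        exact hiS (Finset.mem_filter.2 ⟨Finset.mem_univ i, not_lt.1 h⟩)
      have h7 : 0 < co hA i f ^ 2 := by positivity
      exact mul_lt_mul_of_pos_right h6 h7
  linarith

/-- the subspace where all coefficients outside `S` vanish -/
theorem exists_sub {A : Matrix n n ℝ} (hA : A.IsHermitian) (t : ℝ) :
    ∃ W : Submodule ℝ (n → ℝ), (Finset.univ.filter fun i => t ≤ hA.eigenvalues i).card ≤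
      Module.finrank ℝ W ∧ ∀ f ∈ W, t * ∑ x, f x ^ 2 ≤ ∑ x, f x * A.mulVec f x := by
  classical
  set S := Finset.univ.filter fun i => ¬ t ≤ hA.eigenvalues i with hS
  refine ⟨LinearMap.ker (coL hA S), ?_, ?_⟩
  · have h1 := LinearMap.finrank_range_add_finrank_ker (coL hA S)
    have h2 : Module.finrank ℝ (LinearMap.range (coL hA S)) ≤ S.card := by
      refine (Submodule.finrank_le _).trans ?_
      rw [Module.finrank_fintype_fun_eq_card, Fintype.card_coe]
    rw [Module.finrank_fintype_fun_eq_card] at h1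
    have h3 := Finset.card_filter_add_card_filter_not (s := (Finset.univ : Finset n)) (fun i => t ≤ hA.eigenvalues i)
    rw [Finset.card_univ, ← hS] at h3
    omega
  · intro f hf
    have hco : ∀ i ∈ S, co hA i f = 0 := by
      intro i hi
      have h3 := LinearMap.mem_ker.1 hf
      exact congrFun h3 ⟨i, hi⟩
    rw [form_eq hA, norm_eq hA, Finset.mul_sum]
    refine Finset.sum_le_sum fun i _ => ?_
    by_cases hi : i ∈ S
    · rw [hco i hi]; simp
    · have : t ≤ hA.eigenvalues i := by
        by_contra h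
        exact hi (Finset.mem_filter.2 ⟨Finset.mem_univ i, h⟩)
      exact mul_le_mul_of_nonneg_right this (sq_nonneg _)

/-- comparison of the counting functions -/
theorem compare {A B : Matrix n n ℝ} (hA : A.IsHermitian) (hB : B.IsHermitian) (t0 t1 : ℝ)
    (e : (n → ℝ) ≃ₗ[ℝ] (n → ℝ))
    (h : ∀ g : n → ℝ, t0 * ∑ x, g x ^ 2 ≤ ∑ x, g x * A.mulVec g x →
      t1 * ∑ x, e g x ^ 2 ≤ ∑ x, e g x * B.mulVec (e g) x) :
    (Finset.univ.filter fun i => t0 ≤ hA.eigenvalues i).card ≤
      (Finset.univ.filter fun i => t1 ≤ hB.eigenvalues i).card := by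
  obtain ⟨W, hW1, hW2⟩ := exists_sub hA t0
  refine hW1.trans ?_
  have h1 := le_count hB t1 (W.map e.toLinearMap) (by
    intro f hf
    obtain ⟨g, hg, rfl⟩ := Submodule.mem_map.1 hf
    exact h g (hW2 g hg))
  rwa [LinearEquiv.finrank_map_eq] at h1

end Pool.Agent.H695R3.AN.Count
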