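import Pool.Agent.H4R2.AE.Defs
import Pool.Agent.H4R2.AE.Sobt
import Pool.Agent.H4R2.AE.Lin

/-!
# Local boundedness of subsolutions on the torus (Moser iteration)
-/

set_option autoImplicit false

open scoped BigOperators

namespace Pool.Agent.H695R3.AN

open Pool.Agent.H4R2.AE (T LapW)
open Finset

variable {d L : ℕ}

/-- sup distance on the torus -/
def nd (z x : T d L) : ℕ := Finset.univ.sup fun i => ((x i - z i).valMinAbs).natAbs

theorem nd_self (z : T d L) : nd z z = 0 := by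
  unfold nd
  apply Nat.le_zero.1
  refine Finset.sup_le fun i _ => ?_
  rw [sub_self, ZMod.valMinAbs_zero]
  simp

theorem nd_le_iff (z x : T d L) (l : ℕ) :
    nd z x ≤ l ↔ ∀ i, ((x i - z i).valMinAbs).natAbs ≤ l := by
  unfold nd
  rw [Finset.sup_le_iff]
  exact ⟨fun h i => h i (Finset.mem_univ i), fun h i _ => h i⟩

theorem single_natAbs [NeZero L] (i j : Fin d) :
    ((Pi.single i (1 : ZMod L) : T d L) j).valMinAbs.natAbs ≤ 1 := by
  by_cases h : j = i
  · subst h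
    rw [Pi.single_eq_same]
    have h1 := ZMod.valMinAbs_natAbs_eq_min (1 : ZMod L)
    rw [h1]
    by_cases hL : L = 1
    · subst hL
      simp
    · have : (1 : ZMod L).val = 1 := by
        apply ZMod.val_one''
        exact hL
      rw [this]
      exact min_le_left _ _
  · rw [Pi.single_eq_of_ne h, ZMod.valMinAbs_zero]
    simp

theorem valMinAbs_add_le [NeZero L] (a b : ZMod L) :
    (a + b).valMinAbs.natAbs ≤ a.valMinAbs.natAbs + b.valMinAbs.natAbs :=
  (ZMod.natAbs_valMinAbs_add_le a b).trans (Int.natAbs_add_le _ _)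

theorem nd_add [NeZero L] (z x : T d L) (i : Fin d) : nd z (x + Pi.single i 1) ≤ nd z x + 1 := by
  rw [nd_le_iff]
  intro j
  have h1 := (nd_le_iff z x (nd z x)).1 le_rfl j
  have h2 : (x + Pi.single i 1 : T d L) j - z j = (x j - z j) + (Pi.single i (1 : ZMod L) : T d L) j := by
    rw [Pi.add_apply]; ring
  rw [h2]
  have h3 := valMinAbs_add_le (x j - z j) ((Pi.single i (1 : ZMod L) : T d L) j)
  have h4 := single_natAbs (L := L) i j
  omega

theorem nd_sub [NeZero L] (z x : T d L) (i : Fin d) : nd z (x - Pi.single i 1) ≤ nd z x + 1 := by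
  rw [nd_le_iff]
  intro j
  have h1 := (nd_le_iff z x (nd z x)).1 le_rfl j
  have h2 : (x - Pi.single i 1 : T d L) j - z j =
      (x j - z j) + -(Pi.single i (1 : ZMod L) : T d L) j := by
    rw [Pi.sub_apply]; ring
  rw [h2]
  have h3 := valMinAbs_add_le (x j - z j) (-(Pi.single i (1 : ZMod L) : T d L) j)
  rw [ZMod.natAbs_valMinAbs_neg] at h3
  have h4 := single_natAbs (L := L) i j
  omega

theorem nd_add' [NeZero L] (z x : T d L) (i : Fin d) : nd z x ≤ nd z (x + Pi.single i 1) + 1 := by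
  have := nd_sub z (x + Pi.single i 1) i
  rwa [add_sub_cancel_right] at this

/-- the cutoff -/
noncomputable def cf (r s : ℝ) (z x : T d L) : ℝ := max 0 (min 1 ((s - nd z x) / (s - r)))

theorem cf_nonneg (r s : ℝ) (z x : T d L) : 0 ≤ cf r s z x := le_max_left _ _

theorem cf_le (r s : ℝ) (z x : T d L) : cf r s z x ≤ 1 := max_le zero_le_one (min_le_left _ _)

theorem cf_one (r s : ℝ) (hrs : r < s) (z x : T d L) (h : (nd z x : ℝ) ≤ r) : cf r s z x = 1 := by
  unfold cf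
  have h1 : 1 ≤ (s - nd z x) / (s - r) := by
    rw [le_div_iff₀ (by linarith)]
    linarith
  rw [min_eq_left h1, max_eq_right zero_le_one]

theorem cf_zero (r s : ℝ) (hrs : r < s) (z x : T d L) (h : s ≤ (nd z x : ℝ)) : cf r s z x = 0 := by
  unfold cf
  have h1 : (s - nd z x) / (s - r) ≤ 0 := by
    apply div_nonpos_of_nonpos_of_nonneg <;> linarith
  rw [min_eq_right (h1.trans zero_le_one), max_eq_left h1]

theorem clamp_lip (a b : ℝ) : |max 0 (min 1 a) - max 0 (min 1 b)| ≤ |a - b| := by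
  simp only [max_def, min_def]
  split_ifs <;> rw [abs_le] <;> constructor <;> rcases abs_cases (a - b) with h | h <;> linarith

theorem cf_lip [NeZero L] (r s : ℝ) (hrs : r < s) (z x : T d L) (i : Fin d) :
    (cf r s z x - cf r s z (x + Pi.single i 1)) ^ 2 ≤ 1 / (s - r) ^ 2 := by
  have h0 : 0 < s - r := by linarith
  have h1 := clamp_lip ((s - nd z x) / (s - r)) ((s - nd z (x + Pi.single i 1)) / (s - r))
  have h2 : |(s - (nd z x : ℝ)) / (s - r) - (s - nd z (x + Pi.single i 1)) / (s - r)| ≤ 1 / (s - r) := by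
    rw [← sub_div, abs_div, abs_of_pos h0]
    apply div_le_div_of_nonneg_right _ h0.le
    have h3 : (nd z (x + Pi.single i 1) : ℝ) ≤ nd z x + 1 := by exact_mod_cast nd_add z x i
    have h4 : (nd z x : ℝ) ≤ nd z (x + Pi.single i 1) + 1 := by exact_mod_cast nd_add' z x i
    rw [abs_le]
    constructor <;> linarith
  have h5 := h1.trans h2
  rw [← sq_abs, ← one_div_pow]
  exact pow_le_pow_left₀ (abs_nonneg _) h5 2

/-- the mass in a ball -/
noncomputable def Q [NeZero L] (z : T d L) (f : T d L → ℝ) (r : ℝ) : ℝ :=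
  ∑ x, if (nd z x : ℝ) ≤ r then f x ^ 2 else 0

theorem Q_nonneg [NeZero L] (z : T d L) (f : T d L → ℝ) (r : ℝ) : 0 ≤ Q z f r :=
  Finset.sum_nonneg fun x _ => by split_ifs <;> positivity

/-- energy estimate -/
theorem cacc [NeZero L] (ψ w : T d L → ℝ) (z : T d L) (A r s : ℝ) (hA : 0 ≤ A) (hrs : r < s)
    (hψ : ∀ x, 1 ≤ ψ x ∧ ψ x ≤ 2) (hw : ∀ x, 0 ≤ w x)
    (hsub : ∀ x, (nd z x : ℝ) < s → LapW ψ w x ≤ A * w x) :
    ∑ i : Fin d, ∑ x, (cf r s z (x + Pi.single i 1) * w (x + Pi.single i 1) - cf r s z x * w x) ^ 2 ≤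
      (A + 4 * d / (s - r) ^ 2) * Q z w (s + 1) := by
  set χ := cf r s z with hχ
  have hχ0 : ∀ x, 0 ≤ χ x := fun x => cf_nonneg r s z x
  have hχ1 : ∀ x, χ x ≤ 1 := fun x => cf_le r s z x
  have hχz : ∀ x, s ≤ (nd z x : ℝ) → χ x = 0 := fun x h => cf_zero r s hrs z x h
  -- the tested inequality
  have h1 : ∑ x, (χ x ^ 2 * w x) * LapW ψ w x ≤ A * Q z w (s + 1) := by
    unfold Q
    rw [Finset.mul_sum]
    refine Finset.sum_le_sum fun x _ => ?_
    by_cases hx : (nd z x : ℝ) < s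
    · rw [if_pos (by linarith)]
      have h2 := hsub x hx
      have h3 : 0 ≤ χ x ^ 2 * w x := mul_nonneg (sq_nonneg _) (hw x)
      have h4 : χ x ^ 2 ≤ 1 := pow_le_one₀ (hχ0 x) (hχ1 x)
      calc χ x ^ 2 * w x * LapW ψ w x ≤ χ x ^ 2 * w x * (A * w x) := mul_le_mul_of_nonneg_left h2 h3
        _ = χ x ^ 2 * (A * w x ^ 2) := by ring
        _ ≤ 1 * (A * w x ^ 2) := mul_le_mul_of_nonneg_right h4 (by positivity)
        _ = A * w x ^ 2 := one_mul _
    · rw [hχz x (not_lt.1 hx)]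
      have : 0 ≤ A * (if (nd z x : ℝ) ≤ s + 1 then w x ^ 2 else 0) := by
        apply mul_nonneg hA
        split_ifs <;> positivity
      simpa using this
  rw [Pool.Agent.H4R2.AE.Lin.bilin] at h1
  -- the identity
  have h2 : ∀ x, ∀ i : Fin d,
      (χ (x + Pi.single i 1) * w (x + Pi.single i 1) - χ x * w x) ^ 2 ≤
      ψ x * ψ (x + Pi.single i 1) *
        ((χ x ^ 2 * w x - χ (x + Pi.single i 1) ^ 2 * w (x + Pi.single i 1)) *
          (w x - w (x + Pi.single i 1))) +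
      (2 / (s - r) ^ 2) * ((if (nd z x : ℝ) ≤ s + 1 then w x ^ 2 else 0) +
        (if (nd z (x + Pi.single i 1) : ℝ) ≤ s + 1 then w (x + Pi.single i 1) ^ 2 else 0)) := by
    intro x i
    set y := x + Pi.single i 1 with hy
    have hp1 := hψ x
    have hp2 := hψ y
    have hpp : 1 ≤ ψ x * ψ y := by nlinarith
    have hpp4 : ψ x * ψ y ≤ 4 := by nlinarith
    have e1 : (χ x ^ 2 * w x - χ y ^ 2 * w y) * (w x - w y) =
        (χ y * w y - χ x * w x) ^ 2 - (χ x - χ y) ^ 2 * (w x * w y) := by ring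
    rw [e1]
    have e2 : (χ x - χ y) ^ 2 * (w x * w y) ≤
        (1 / (2 * (s - r) ^ 2)) * ((if (nd z x : ℝ) ≤ s + 1 then w x ^ 2 else 0) +
        (if (nd z y : ℝ) ≤ s + 1 then w y ^ 2 else 0)) := by
      have hL := cf_lip r s hrs z x i
      rw [← hχ, ← hy] at hL
      have hxy : (nd z y : ℝ) ≤ nd z x + 1 := by exact_mod_cast nd_add z x i
      have hyx : (nd z x : ℝ) ≤ nd z y + 1 := by exact_mod_cast nd_add' z x i
      by_cases hx : s ≤ (nd z x : ℝ)
      · by_cases hy' : s ≤ (nd z y : ℝ)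
        · rw [hχz x hx, hχz y hy']
          have : 0 ≤ (1 / (2 * (s - r) ^ 2)) * ((if (nd z x : ℝ) ≤ s + 1 then w x ^ 2 else 0) +
              (if (nd z y : ℝ) ≤ s + 1 then w y ^ 2 else 0)) := by
            apply mul_nonneg (by positivity)
            split_ifs <;> positivity
          simpa using this
        · rw [if_pos (by linarith), if_pos (by linarith)]
          have h5 : w x * w y ≤ (w x ^ 2 + w y ^ 2) / 2 := by nlinarith [sq_nonneg (w x - w y)]
          have h6 : 0 ≤ w x * w y := mul_nonneg (hw x) (hw y)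
          calc (χ x - χ y) ^ 2 * (w x * w y) ≤ 1 / (s - r) ^ 2 * ((w x ^ 2 + w y ^ 2) / 2) :=
                mul_le_mul hL h5 h6 (by positivity)
            _ = _ := by field_simp
      · rw [if_pos (by linarith), if_pos (by linarith)]
        have h5 : w x * w y ≤ (w x ^ 2 + w y ^ 2) / 2 := by nlinarith [sq_nonneg (w x - w y)]
        have h6 : 0 ≤ w x * w y := mul_nonneg (hw x) (hw y)
        calc (χ x - χ y) ^ 2 * (w x * w y) ≤ 1 / (s - r) ^ 2 * ((w x ^ 2 + w y ^ 2) / 2) :=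
              mul_le_mul hL h5 h6 (by positivity)
          _ = _ := by field_simp
    have h0 : 0 ≤ (χ x - χ y) ^ 2 * (w x * w y) := mul_nonneg (sq_nonneg _) (mul_nonneg (hw x) (hw y))
    have e3 : ψ x * ψ y * ((χ x - χ y) ^ 2 * (w x * w y)) ≤
        4 * ((1 / (2 * (s - r) ^ 2)) * ((if (nd z x : ℝ) ≤ s + 1 then w x ^ 2 else 0) +
        (if (nd z y : ℝ) ≤ s + 1 then w y ^ 2 else 0))) :=
      mul_le_mul hpp4 e2 h0 (by norm_num)
    have e4 : 4 * ((1 / (2 * (s - r) ^ 2)) * ((if (nd z x : ℝ) ≤ s + 1 then w x ^ 2 else 0) +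
        (if (nd z y : ℝ) ≤ s + 1 then w y ^ 2 else 0))) =
        (2 / (s - r) ^ 2) * ((if (nd z x : ℝ) ≤ s + 1 then w x ^ 2 else 0) +
        (if (nd z y : ℝ) ≤ s + 1 then w y ^ 2 else 0)) := by
      field_simp
      ring
    have e5 : (χ y * w y - χ x * w x) ^ 2 ≤ ψ x * ψ y * (χ y * w y - χ x * w x) ^ 2 := by
      nlinarith [sq_nonneg (χ y * w y - χ x * w x)]
    rw [e4] at e3
    rw [mul_sub]
    linarith
  rw [Finset.sum_comm]
  refine (Finset.sum_le_sum fun x _ => Finset.sum_le_sum fun i _ => h2 x i).trans ?_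
  simp only [Finset.sum_add_distrib]
  have h3 : ∑ x : T d L, ∑ i : Fin d, (2 / (s - r) ^ 2) *
      ((if (nd z x : ℝ) ≤ s + 1 then w x ^ 2 else 0) +
        (if (nd z (x + Pi.single i 1) : ℝ) ≤ s + 1 then w (x + Pi.single i 1) ^ 2 else 0)) =
      4 * d / (s - r) ^ 2 * Q z w (s + 1) := by
    rw [Finset.sum_comm]
    have h4 : ∀ i ∈ (Finset.univ : Finset (Fin d)), ∑ x : T d L, (2 / (s - r) ^ 2) *
      ((if (nd z x : ℝ) ≤ s + 1 then w x ^ 2 else 0) +
        (if (nd z (x + Pi.single i 1) : ℝ) ≤ s + 1 then w (x + Pi.single i 1) ^ 2 else 0)) =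
        4 / (s - r) ^ 2 * Q z w (s + 1) := by
      intro i _
      rw [← Finset.mul_sum, Finset.sum_add_distrib]
      have h5 : ∑ x : T d L, (if (nd z (x + Pi.single i 1) : ℝ) ≤ s + 1 then
          w (x + Pi.single i 1) ^ 2 else 0) = Q z w (s + 1) := by
        unfold Q
        exact Fintype.sum_equiv (Equiv.addRight (Pi.single i 1)) _ _ fun _ => rfl
      rw [h5]
      unfold Q
      ring
    rw [Finset.sum_congr rfl h4, Finset.sum_const, Finset.card_univ, Fintype.card_fin, nsmul_eq_mul]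
    ring
  rw [h3]
  linarith

/-- `w ^ q` is a subsolution -/
theorem pow_sub (ψ w : T d L → ℝ) (x : T d L) (A q : ℝ) (hq : 1 ≤ q)
    (hψ : ∀ x, 0 ≤ ψ x) (hw : ∀ x, 0 ≤ w x) (hsub : LapW ψ w x ≤ A * w x) :
    LapW ψ (fun y => w y ^ q) x ≤ (q * A) * w x ^ q := by
  have key : ∀ a b : ℝ, 0 ≤ a → 0 ≤ b → a ^ q - b ^ q ≤ q * a ^ (q - 1) * (a - b) := by
    intro a b ha hb
    rcases eq_or_lt_of_le ha with h0 | h0
    · rw [← h0, Real.zero_rpow (by linarith)]
      rcases eq_or_lt_of_le hq with h1 | h1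
      · rw [← h1]
        norm_num
      · rw [Real.zero_rpow (by linarith)]
        have := Real.rpow_nonneg hb q
        linarith
    · have h1 := one_add_mul_self_le_rpow_one_add (s := b / a - 1) (by
        have : 0 ≤ b / a := by positivity
        linarith) hq
      have h2 : (1 + (b / a - 1)) ^ q = b ^ q / a ^ q := by
        rw [add_sub_cancel, Real.div_rpow hb ha]
      rw [h2, le_div_iff₀ (Real.rpow_pos_of_pos h0 q)] at h1
      have h3 : a ^ (q - 1) * a = a ^ q := by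
        rw [← Real.rpow_add_one h0.ne']
        congr 1
        ring
      have h4 : (1 + q * (b / a - 1)) * a ^ q = a ^ q + q * a ^ (q - 1) * (b - a) := by
        rw [← h3]
        field_simp
      linarith
  have h1 : LapW ψ (fun y => w y ^ q) x ≤ q * w x ^ (q - 1) * LapW ψ w x := by
    unfold LapW
    rw [Finset.mul_sum]
    refine Finset.sum_le_sum fun i _ => ?_
    have k1 := key (w x) (w (x + Pi.single i 1)) (hw _) (hw _)
    have k2 := key (w x) (w (x - Pi.single i 1)) (hw _) (hw _)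
    have p1 : 0 ≤ ψ x * ψ (x + Pi.single i 1) := mul_nonneg (hψ _) (hψ _)
    have p2 : 0 ≤ ψ x * ψ (x - Pi.single i 1) := mul_nonneg (hψ _) (hψ _)
    have m1 := mul_le_mul_of_nonneg_left k1 p1
    have m2 := mul_le_mul_of_nonneg_left k2 p2
    calc _ ≤ ψ x * ψ (x + Pi.single i 1) * (q * w x ^ (q - 1) * (w x - w (x + Pi.single i 1))) +
          ψ x * ψ (x - Pi.single i 1) * (q * w x ^ (q - 1) * (w x - w (x - Pi.single i 1))) :=
          add_le_add m1 m2
      _ = _ := by ring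
  refine h1.trans ?_
  have h2 : 0 ≤ q * w x ^ (q - 1) := mul_nonneg (by linarith) (Real.rpow_nonneg (hw x) _)
  refine (mul_le_mul_of_nonneg_left hsub h2).trans (le_of_eq ?_)
  rcases eq_or_lt_of_le (hw x) with h0 | h0
  · rw [← h0, Real.zero_rpow (by linarith : q ≠ 0)]
    ring
  · have h3 : w x ^ (q - 1) * w x = w x ^ q := by
      rw [← Real.rpow_add_one h0.ne']
      congr 1
      ring
    rw [← h3]
    ring

/-- one step of the iteration -/
theorem mstep (d : ℕ) (hd : 3 ≤ d) : ∃ C : ℝ, 1 ≤ C ∧ ∀ (L : ℕ) [NeZero L] (ψ w : T d L → ℝ)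
    (z : T d L) (A r s : ℝ), 0 ≤ A → r < s → (∀ x, 1 ≤ ψ x ∧ ψ x ≤ 2) → (∀ x, 0 ≤ w x) →
    (∀ x, (nd z x : ℝ) < s → LapW ψ w x ≤ A * w x) →
    (Q z (fun x => w x ^ ((d : ℝ) / (d - 2))) r) ^ (((d : ℝ) - 2) / d) ≤
      C * (A + 1 / (s - r) ^ 2 + 1 / (L : ℝ) ^ 2) * Q z w (s + 1) := by
  obtain ⟨C, hC, H⟩ := Pool.Agent.H4R2.AE.Sobt.sobt d hd
  have hd3 : (3 : ℝ) ≤ d := by exact_mod_cast hd
  have hd2 : 0 < (d : ℝ) - 2 := by linarith
  have hd0 : 0 < (d : ℝ) := by linarith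
  refine ⟨4 * d * C, by nlinarith, ?_⟩
  intro L _ ψ w z A r s hA hrs hψ hw hsub
  have hQ := Q_nonneg z w (s + 1)
  have h1 := H L (fun x => cf r s z x * w x) (fun x => mul_nonneg (cf_nonneg _ _ _ _) (hw x))
  have h2 := cacc ψ w z A r s hA hrs hψ hw hsub
  have h3 : ∑ x, (cf r s z x * w x) ^ 2 ≤ Q z w (s + 1) := by
    unfold Q
    refine Finset.sum_le_sum fun x _ => ?_
    by_cases hx : (nd z x : ℝ) < s
    · rw [if_pos (by linarith), mul_pow]
      have : cf r s z x ^ 2 ≤ 1 := pow_le_one₀ (cf_nonneg _ _ _ _) (cf_le _ _ _ _)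
      nlinarith [sq_nonneg (w x)]
    · rw [cf_zero r s hrs z x (not_lt.1 hx)]
      split_ifs
      · nlinarith [sq_nonneg (w x)]
      · simp
  have h4 : Q z (fun x => w x ^ ((d : ℝ) / (d - 2))) r ≤
      ∑ x, (cf r s z x * w x) ^ (2 * (d : ℝ) / ((d : ℝ) - 2)) := by
    unfold Q
    refine Finset.sum_le_sum fun x _ => ?_
    split_ifs with hx
    · rw [cf_one r s hrs z x hx, one_mul, ← Real.rpow_natCast, ← Real.rpow_mul (hw x)]
      apply le_of_eq
      congr 1
      push_cast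
      ring
    · exact Real.rpow_nonneg (mul_nonneg (cf_nonneg _ _ _ _) (hw x)) _
  have h5 := Real.rpow_le_rpow (Q_nonneg z _ r) h4 (z := ((d : ℝ) - 2) / d) (by positivity)
  refine h5.trans (h1.trans ?_)
  have hsr : 0 < (s - r) ^ 2 := by
    have : 0 < s - r := by linarith
    positivity
  have h6 : ∑ i : Fin d, ∑ x, (cf r s z (x + Pi.single i 1) * w (x + Pi.single i 1) -
      cf r s z x * w x) ^ 2 + 1 / (L : ℝ) ^ 2 * ∑ x, (cf r s z x * w x) ^ 2 ≤
      4 * d * (A + 1 / (s - r) ^ 2 + 1 / (L : ℝ) ^ 2) * Q z w (s + 1) := by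
    have h7 : 1 / (L : ℝ) ^ 2 * ∑ x, (cf r s z x * w x) ^ 2 ≤ 1 / (L : ℝ) ^ 2 * Q z w (s + 1) :=
      mul_le_mul_of_nonneg_left h3 (by positivity)
    have h8 : 4 * (d : ℝ) / (s - r) ^ 2 = 4 * d * (1 / (s - r) ^ 2) := by ring
    have h9 : (A + 4 * d / (s - r) ^ 2) + 1 / (L : ℝ) ^ 2 ≤
        4 * d * (A + 1 / (s - r) ^ 2 + 1 / (L : ℝ) ^ 2) := by
      rw [h8]
      have e1 : A ≤ 4 * d * A := by nlinarith
      have e2 : 1 / (L : ℝ) ^ 2 ≤ 4 * d * (1 / (L : ℝ) ^ 2) := by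
        have : 0 ≤ 1 / (L : ℝ) ^ 2 := by positivity
        nlinarith
      linarith
    calc _ ≤ (A + 4 * d / (s - r) ^ 2) * Q z w (s + 1) + 1 / (L : ℝ) ^ 2 * Q z w (s + 1) :=
          add_le_add h2 h7
      _ = ((A + 4 * d / (s - r) ^ 2) + 1 / (L : ℝ) ^ 2) * Q z w (s + 1) := by ring
      _ ≤ _ := mul_le_mul_of_nonneg_right h9 hQ
  calc _ ≤ C * (4 * d * (A + 1 / (s - r) ^ 2 + 1 / (L : ℝ) ^ 2) * Q z w (s + 1)) :=
        mul_le_mul_of_nonneg_left h6 (by linarith)
    _ = _ := by ring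

end Pool.Agent.H695R3.AN
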