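import Pool.Agent.H695R3.AN.Trans
import Pool.Agent.H695R3.AN.Count

/-!
# Pointwise bounds for eigenfunctions near the effective band edge: probabilistic part
-/

set_option autoImplicit false

open scoped BigOperators ENNReal
open MeasureTheory

namespace Pool.Agent.H695R3.AN

open Pool.Agent.H4R2
open Pool.Agent.H4R2.AE (T LapW Hop)
open Pool.Agent.H4R2.LO (Zd Hg L2f IsGen)

/-- the law of the periodised potential -/
theorem law_lf {d L : ℕ} [NeZero L] (μ : Measure ℝ) [IsProbabilityMeasure μ] :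
    (Measure.infinitePi fun _ : Zd d => μ).map (fun ω (y : T d L) => ω (lf y)) =
      Measure.pi fun _ : T d L => μ := by
  classical
  set Λ : Finset (Zd d) := Finset.univ.image (lf (d := d) (L := L)) with hΛ
  set e : T d L → Λ := fun y => ⟨lf y, Finset.mem_image_of_mem _ (Finset.mem_univ y)⟩ with he
  have hinj : Function.Injective e := by
    intro x y h
    exact lf_inj (congrArg Subtype.val h)
  have h1 := LO.Em.rs_map (d := d) μ Λ
  have h2 := LO.Em.em_pi_map μ e hinj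
  rw [← h1, Measure.map_map] at h2
  · exact h2
  · exact measurable_pi_iff.2 fun a => measurable_pi_apply _
  · exact measurable_pi_iff.2 fun a => measurable_pi_apply _

theorem rpow_half (κ : ℝ) (hκ : 0 < κ) (d : ℕ) :
    (1 : ℝ) / (κ ^ (-(1 / 2 : ℝ))) ^ d = κ ^ ((d : ℝ) / 2) := by
  rw [← Real.rpow_natCast, ← Real.rpow_mul hκ.le, one_div, ← Real.rpow_neg hκ.le]
  congr 1
  ring

/-- eigenfunctions on the lattice near the bottom edge -/
theorem latt (d : ℕ) (hd : 4 ≤ d) : ∃ C : ℝ, 1 ≤ C ∧ ∀ (μ : Measure ℝ) [IsProbabilityMeasure μ]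
    (k s lam K Es : ℝ), 0 ≤ K → 10 ≤ Real.exp (k / (2 * s)) →
    (∀ (L : ℕ) [NeZero L], (L : ℝ) ≤ Real.exp (k / s) →
      ∃ G : Set (T d L → ℝ), MeasurableSet G ∧
        1 - Real.exp (-k / s) ≤ (Measure.pi fun _ : T d L => μ).real G ∧
        ∀ V ∈ G, ∃ (E0 : ℝ) (ψ : T d L → ℝ), |E0 - Es| ≤ K / (L : ℝ) ^ 2 ∧
          (∀ x, 1 ≤ ψ x ∧ ψ x ≤ 2) ∧ ∀ x, Hop lam V ψ x = E0 * ψ x) →
    ∃ G : Set (Zd d → ℝ), MeasurableSet G ∧
      1 - Real.exp (-k / s) ≤ (Measure.infinitePi fun _ : Zd d => μ).real G ∧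
      ∀ ω ∈ G, ∀ κ : ℝ, Real.exp (-k / (2 * s)) ≤ κ → κ ≤ 1 → ∀ E : ℝ, 2 * d + E ≤ Es + κ →
        ∀ u : Zd d → ℂ, IsGen (-1) (fun x => lam * ω x) E u → L2f u →
          ∀ x : Zd d, ‖x‖ ≤ Real.exp (k / (2 * s)) →
            ‖u x‖ ^ 2 ≤ C * (1 + K) ^ ((d : ℝ) / 2) * κ ^ ((d : ℝ) / 2) * ∑' y, ‖u y‖ ^ 2 := by
  obtain ⟨C, hC, H⟩ := lattice d hd
  refine ⟨C, hC, ?_⟩
  intro μ _ k s lam K Es hK hX HT
  set X : ℝ := Real.exp (k / (2 * s)) with hXdef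
  have hXX : Real.exp (k / s) = X * X := by
    rw [hXdef, ← Real.exp_add]
    congr 1
    by_cases hs : s = 0
    · subst hs; simp
    · field_simp
      ring
  set L0 : ℕ := ⌊Real.exp (k / s)⌋₊ with hL0
  have hL0le : (L0 : ℝ) ≤ Real.exp (k / s) := Nat.floor_le (Real.exp_pos _).le
  have hL0ge : X * X - 1 < L0 := by
    have := Nat.lt_floor_add_one (Real.exp (k / s))
    rw [← hL0, hXX] at this
    linarith
  have hL0X : X ≤ L0 := by nlinarith
  have hL0pos : 0 < L0 := by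
    have : (0 : ℝ) < L0 := by linarith
    exact_mod_cast this
  haveI : NeZero L0 := ⟨hL0pos.ne'⟩
  obtain ⟨G, hG, hP, hflat⟩ := HT L0 hL0le
  have hm : Measurable (fun (ω : Zd d → ℝ) (y : T d L0) => ω (lf y)) :=
    measurable_pi_iff.2 fun a => measurable_pi_apply _
  refine ⟨(fun ω y => ω (lf y)) ⁻¹' G, hm hG, ?_, ?_⟩
  · rw [← law_lf (d := d) (L := L0) μ] at hP
    rwa [map_measureReal_apply hm hG] at hP
  intro ω hω κ hκ hκ1 E hE u hu hL2 x hx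
  obtain ⟨E0, ψ, hE0, hψ, heig⟩ := hflat _ hω
  have hκX : 1 / X ≤ κ := by
    refine le_trans (le_of_eq ?_) hκ
    rw [hXdef, one_div, ← Real.exp_neg]
    congr 1
    ring
  have hX0 : 0 < X := by linarith
  have hκ0 : 0 < κ := lt_of_lt_of_le (by positivity) hκX
  have hL2κ : K / (L0 : ℝ) ^ 2 ≤ K * κ := by
    rw [div_eq_mul_one_div]
    apply mul_le_mul_of_nonneg_left _ hK
    refine le_trans ?_ hκX
    apply one_div_le_one_div_of_le hX0
    nlinarith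
  set κ' : ℝ := (1 + K) * κ with hκ'
  have hκ'0 : 0 < κ' := by positivity
  have hκκ' : κ ≤ κ' := by nlinarith
  have hsum0 : 0 ≤ ∑' y, ‖u y‖ ^ 2 := tsum_nonneg fun y => by positivity
  have hprod : (1 + K) ^ ((d : ℝ) / 2) * κ ^ ((d : ℝ) / 2) = κ' ^ ((d : ℝ) / 2) := by
    rw [hκ', Real.mul_rpow (by linarith) hκ0.le]
  rw [mul_assoc C, hprod]
  rcases le_or_gt κ' 1 with h1 | h1
  · set R : ℝ := κ' ^ (-(1 / 2 : ℝ)) with hR
    have hR0 : 0 < R := Real.rpow_pos_of_pos hκ'0 _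
    have hR1 : 1 ≤ R := Real.one_le_rpow_of_pos_of_le_one_of_nonpos hκ'0 h1 (by norm_num)
    have hRR : R ^ 2 = 1 / κ' := by
      rw [hR, ← Real.rpow_natCast, ← Real.rpow_mul hκ'0.le]
      norm_num
      rw [Real.rpow_neg_one]
    have hRX : R ≤ X := by
      have h2 : R ^ 2 ≤ X := by
        rw [hRR, div_le_iff₀ hκ'0]
        rw [div_le_iff₀ hX0] at hκX
        nlinarith
      nlinarith
    have h3 := H L0 lam E0 E ω ψ R x hR1 (by nlinarith) hψ heig (by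
      rw [hRR]
      have h4 := (abs_le.1 hE0).1
      have h5 : 2 / (1 / κ') = 2 * κ' := by field_simp
      rw [h5]
      have : κ' = κ + K * κ := by rw [hκ']; ring
      linarith) u hu hL2
    refine h3.trans (le_of_eq ?_)
    rw [div_eq_mul_one_div, hR, rpow_half κ' hκ'0 d]
  · have h2 : ‖u x‖ ^ 2 ≤ ∑' y, ‖u y‖ ^ 2 := hL2.le_tsum x (fun y _ => by positivity)
    have h3 : 1 ≤ C * κ' ^ ((d : ℝ) / 2) := by
      have : 1 ≤ κ' ^ ((d : ℝ) / 2) := Real.one_le_rpow h1.le (by positivity)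
      nlinarith
    nlinarith

/-- eigenfunctions on the torus near the bottom edge -/
theorem tor (d : ℕ) (hd : 4 ≤ d) : ∃ C : ℝ, 1 ≤ C ∧ ∀ (L : ℕ) [NeZero L] (lam K Es E0 : ℝ)
    (V ψ : T d L → ℝ), 0 ≤ K → |E0 - Es| ≤ K / (L : ℝ) ^ 2 → (∀ x, 1 ≤ ψ x ∧ ψ x ≤ 2) →
    (∀ x, Hop lam V ψ x = E0 * ψ x) → ∀ κ E : ℝ, 1 / (L : ℝ) ^ 2 ≤ κ → E ≤ Es + κ →
      ∀ u : T d L → ℝ, (∀ x, Hop lam V u x = E * u x) → ∀ x,
        u x ^ 2 ≤ C * (1 + K) ^ ((d : ℝ) / 2) * κ ^ ((d : ℝ) / 2) * ∑ y, u y ^ 2 := by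
  obtain ⟨C, hC, H⟩ := torus d hd
  refine ⟨C, hC, ?_⟩
  intro L _ lam K Es E0 V ψ hK hE0 hψ heig κ E hκ hE u hu x
  have hL0 : (0 : ℝ) < L := by exact_mod_cast Nat.pos_of_ne_zero (NeZero.ne L)
  have hκ0 : 0 < κ := lt_of_lt_of_le (by positivity) hκ
  have hL2κ : K / (L : ℝ) ^ 2 ≤ K * κ := by
    rw [div_eq_mul_one_div]
    exact mul_le_mul_of_nonneg_left hκ hK
  set κ' : ℝ := (1 + K) * κ with hκ'
  have hκ'0 : 0 < κ' := by positivity
  have hκκ' : κ ≤ κ' := by nlinarith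
  have hsum0 : 0 ≤ ∑ y, u y ^ 2 := Finset.sum_nonneg fun y _ => sq_nonneg _
  have hprod : (1 + K) ^ ((d : ℝ) / 2) * κ ^ ((d : ℝ) / 2) = κ' ^ ((d : ℝ) / 2) := by
    rw [hκ', Real.mul_rpow (by linarith) hκ0.le]
  rw [mul_assoc C, hprod]
  rcases le_or_gt κ' 1 with h1 | h1
  · set R : ℝ := κ' ^ (-(1 / 2 : ℝ)) with hR
    have hR0 : 0 < R := Real.rpow_pos_of_pos hκ'0 _
    have hR1 : 1 ≤ R := Real.one_le_rpow_of_pos_of_le_one_of_nonpos hκ'0 h1 (by norm_num)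
    have hRR : R ^ 2 = 1 / κ' := by
      rw [hR, ← Real.rpow_natCast, ← Real.rpow_mul hκ'0.le]
      norm_num
      rw [Real.rpow_neg_one]
    have hRL : R ≤ L := by
      have h2 : R ^ 2 ≤ (L : ℝ) ^ 2 := by
        rw [hRR, div_le_iff₀ hκ'0]
        rw [div_le_iff₀ (by positivity)] at hκ
        nlinarith [sq_nonneg (L : ℝ)]
      exact (pow_le_pow_iff_left₀ hR0.le hL0.le two_ne_zero).1 h2
    have h3 := H L lam E0 E V ψ R hR1 hRL hψ heig (by
      rw [hRR]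
      have h4 := (abs_le.1 hE0).1
      have h5 : 2 / (1 / κ') = 2 * κ' := by field_simp
      rw [h5]
      have : κ' = κ + K * κ := by rw [hκ']; ring
      linarith) u hu x
    refine h3.trans (le_of_eq ?_)
    rw [div_eq_mul_one_div, hR, rpow_half κ' hκ'0 d]
  · have h2 : u x ^ 2 ≤ ∑ y, u y ^ 2 :=
      Finset.single_le_sum (f := fun y => u y ^ 2) (fun y _ => sq_nonneg _) (Finset.mem_univ x)
    have h3 : 1 ≤ C * κ' ^ ((d : ℝ) / 2) := by
      have : 1 ≤ κ' ^ ((d : ℝ) / 2) := Real.one_le_rpow h1.le (by positivity)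
      nlinarith
    nlinarith

end Pool.Agent.H695R3.AN
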