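import Pool.Agent.H695R3.AN.Iter
import Pool.Agent.H4R2.LO.Main

/-!
# Pointwise bounds for eigenfunctions near the effective band edge: deterministic part
-/

set_option autoImplicit false

open scoped BigOperators ENNReal
open MeasureTheory

namespace Pool.Agent.H695R3.AN

open Pool.Agent.H4R2
open Pool.Agent.H4R2.AE (T LapW Hop)
open Pool.Agent.H4R2.LO (Zd Hg L2f IsGen)

variable {d L : ℕ}

/-- from an inequality for `Hop` to a pointwise bound -/
theorem point (d : ℕ) (hd : 4 ≤ d) : ∃ C : ℝ, 1 ≤ C ∧ ∀ (L : ℕ) [NeZero L] (lam E0 E : ℝ)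
    (V ψ f : T d L → ℝ) (z : T d L) (R : ℝ), 1 ≤ R → R ≤ L → (∀ x, 1 ≤ ψ x ∧ ψ x ≤ 2) →
    (∀ x, Hop lam V ψ x = E0 * ψ x) → (∀ x, 0 ≤ f x) → E - E0 ≤ 2 / R ^ 2 →
    (∀ x, (nd z x : ℝ) ≤ 3 * R → Hop lam V f x ≤ E * f x) →
    f z ^ 2 ≤ C / R ^ d * ∑ x, f x ^ 2 := by
  obtain ⟨C, hC, H⟩ := moser d hd
  refine ⟨4 * C, by linarith, ?_⟩
  intro L _ lam E0 E V ψ f z R hR hRL hψ heig hf hE hsub
  have hpos : ∀ x, 0 < ψ x := fun x => by linarith [(hψ x).1]
  have hR0 : 0 < R := by linarith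
  set g : T d L → ℝ := fun x => f x / ψ x with hg
  have hfg : ∀ x, f x = ψ x * g x := fun x => by
    simp only [hg]
    field_simp [(hpos x).ne']
  have hfun : f = fun y => ψ y * g y := funext hfg
  have hg0 : ∀ x, 0 ≤ g x := fun x => div_nonneg (hf x) (hpos x).le
  have h1 := H L ψ g z R hR hRL hψ hg0 (by
    intro x hx
    rw [AE.Gs.lapW_hop lam V ψ g x, ← hfun, heig x]
    have h2 := mul_le_mul_of_nonneg_left (hsub x hx) (hpos x).le
    have h3 : ψ x * (E * f x) - ψ x * g x * (E0 * ψ x) = (E - E0) * (ψ x ^ 2 * g x) := by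
      rw [hfg x]; ring
    have h4 : 0 ≤ ψ x ^ 2 * g x := mul_nonneg (sq_nonneg _) (hg0 x)
    have h5 : (E - E0) * (ψ x ^ 2 * g x) ≤ 2 / R ^ 2 * (ψ x ^ 2 * g x) :=
      mul_le_mul_of_nonneg_right hE h4
    have h6 : ψ x ^ 2 * g x ≤ 4 * g x := by
      apply mul_le_mul_of_nonneg_right _ (hg0 x)
      nlinarith [(hψ x).1, (hψ x).2]
    have h7 : 2 / R ^ 2 * (ψ x ^ 2 * g x) ≤ 2 / R ^ 2 * (4 * g x) :=
      mul_le_mul_of_nonneg_left h6 (by positivity)
    have h8 : 2 / R ^ 2 * (4 * g x) = 8 / R ^ 2 * g x := by ring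
    linarith)
  have h2 : Q z g (3 * R) ≤ ∑ x, f x ^ 2 := by
    unfold Q
    refine Finset.sum_le_sum fun x _ => ?_
    split_ifs
    · rw [hfg x, mul_pow]
      have h3 : 1 ≤ ψ x ^ 2 := one_le_pow₀ (hψ x).1
      nlinarith [sq_nonneg (g x)]
    · positivity
  have h3 : f z ^ 2 ≤ 4 * g z ^ 2 := by
    rw [hfg z, mul_pow]
    apply mul_le_mul_of_nonneg_right _ (sq_nonneg _)
    nlinarith [(hψ z).1, (hψ z).2]
  have h4 : 0 ≤ C / R ^ d := by positivity
  calc f z ^ 2 ≤ 4 * g z ^ 2 := h3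
    _ ≤ 4 * (C / R ^ d * Q z g (3 * R)) := by linarith
    _ ≤ 4 * (C / R ^ d * ∑ x, f x ^ 2) := by
        have := mul_le_mul_of_nonneg_left h2 h4
        linarith
    _ = _ := by ring

/-- `|u|` is a subsolution -/
theorem hop_abs (lam E : ℝ) (V u : T d L → ℝ) (x : T d L) (h : Hop lam V u x = E * u x) :
    Hop lam V (fun y => |u y|) x ≤ E * |u x| := by
  unfold Hop at h ⊢
  have h1 : ∑ i : Fin d, (2 * u x - u (x + Pi.single i 1) - u (x - Pi.single i 1)) =
      2 * d * u x - ∑ i : Fin d, (u (x + Pi.single i 1) + u (x - Pi.single i 1)) := by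
    have : ∀ i : Fin d, (2 * u x - u (x + Pi.single i 1) - u (x - Pi.single i 1)) =
        2 * u x - (u (x + Pi.single i 1) + u (x - Pi.single i 1)) := fun i => by ring
    rw [Finset.sum_congr rfl fun i _ => this i, Finset.sum_sub_distrib, Finset.sum_const,
      Finset.card_univ, Fintype.card_fin, nsmul_eq_mul]
    ring
  have h2 : ∑ i : Fin d, (2 * |u x| - |u (x + Pi.single i 1)| - |u (x - Pi.single i 1)|) =
      2 * d * |u x| - ∑ i : Fin d, (|u (x + Pi.single i 1)| + |u (x - Pi.single i 1)|) := by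
    have : ∀ i : Fin d, (2 * |u x| - |u (x + Pi.single i 1)| - |u (x - Pi.single i 1)|) =
        2 * |u x| - (|u (x + Pi.single i 1)| + |u (x - Pi.single i 1)|) := fun i => by ring
    rw [Finset.sum_congr rfl fun i _ => this i, Finset.sum_sub_distrib, Finset.sum_const,
      Finset.card_univ, Fintype.card_fin, nsmul_eq_mul]
    ring
  rw [h1] at h
  rw [h2]
  have h3 : (2 * d + lam * V x - E) * u x =
      ∑ i : Fin d, (u (x + Pi.single i 1) + u (x - Pi.single i 1)) := by linarith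
  have h4 : |∑ i : Fin d, (u (x + Pi.single i 1) + u (x - Pi.single i 1))| ≤
      ∑ i : Fin d, (|u (x + Pi.single i 1)| + |u (x - Pi.single i 1)|) :=
    (Finset.abs_sum_le_sum_abs _ _).trans (Finset.sum_le_sum fun i _ => abs_add_le _ _)
  have h5 : (2 * d + lam * V x - E) * |u x| ≤ |(2 * d + lam * V x - E) * u x| := by
    rw [abs_mul]
    exact mul_le_mul_of_nonneg_right (le_abs_self _) (abs_nonneg _)
  rw [h3] at h5
  linarith

/-- lift of a torus point to the lattice -/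
def lf {d L : ℕ} (y : T d L) : Zd d := fun i => (y i).valMinAbs

theorem lf_inj [NeZero L] : Function.Injective (lf (d := d) (L := L)) := by
  intro x y h
  funext i
  have h1 := congrFun h i
  exact ZMod.valMinAbs_inj.1 h1

theorem lf_add [NeZero L] (y : T d L) (M : ℝ) (hy : ∀ i, (((y i).valMinAbs).natAbs : ℝ) ≤ M)
    (hM : 2 * (M + 1) < L) (i : Fin d) : lf (y + Pi.single i 1) = lf y + Pi.single i 1 := by
  funext j
  unfold lf
  rw [Pi.add_apply, Pi.add_apply]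
  by_cases h : j = i
  · subst h
    rw [Pi.single_eq_same, Pi.single_eq_same]
    rw [ZMod.valMinAbs_spec]
    refine ⟨?_, ?_⟩
    · simp
    · have h1 := hy j
      have h2 : 2 * ((((y j).valMinAbs).natAbs : ℝ) + 1) < L := by linarith
      have h3 : 2 * (((y j).valMinAbs).natAbs + 1) < L := by exact_mod_cast h2
      rw [Set.mem_Ioc]
      omega
  · rw [Pi.single_eq_of_ne h, Pi.single_eq_of_ne h, add_zero, add_zero]

theorem lf_sub [NeZero L] (y : T d L) (M : ℝ) (hy : ∀ i, (((y i).valMinAbs).natAbs : ℝ) ≤ M)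
    (hM : 2 * (M + 1) < L) (i : Fin d) : lf (y - Pi.single i 1) = lf y - Pi.single i 1 := by
  funext j
  unfold lf
  rw [Pi.sub_apply, Pi.sub_apply]
  by_cases h : j = i
  · subst h
    rw [Pi.single_eq_same, Pi.single_eq_same]
    rw [ZMod.valMinAbs_spec]
    refine ⟨?_, ?_⟩
    · simp
    · have h1 := hy j
      have h2 : 2 * ((((y j).valMinAbs).natAbs : ℝ) + 1) < L := by linarith
      have h3 : 2 * (((y j).valMinAbs).natAbs + 1) < L := by exact_mod_cast h2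
      rw [Set.mem_Ioc]
      omega
  · rw [Pi.single_eq_of_ne h, Pi.single_eq_of_ne h, sub_zero, sub_zero]

/-- `‖u‖` is a subsolution on the torus -/
theorem hop_norm (lam E : ℝ) (ω : Zd d → ℝ) (u : Zd d → ℂ) (y : T d L)
    (h : IsGen (-1) (fun x => lam * ω x) E u)
    (ha : ∀ i, lf (y + Pi.single i 1) = lf y + Pi.single i 1)
    (hs : ∀ i, lf (y - Pi.single i 1) = lf y - Pi.single i 1) :
    Hop lam (fun y => ω (lf y)) (fun y => ‖u (lf y)‖) y ≤ (2 * d + E) * ‖u (lf y)‖ := by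
  unfold Hop
  have h2 : ∑ i : Fin d, (2 * ‖u (lf y)‖ - ‖u (lf (y + Pi.single i 1))‖ -
      ‖u (lf (y - Pi.single i 1))‖) =
      2 * d * ‖u (lf y)‖ - ∑ i : Fin d, (‖u (lf y + Pi.single i 1)‖ + ‖u (lf y - Pi.single i 1)‖) := by
    have : ∀ i : Fin d, (2 * ‖u (lf y)‖ - ‖u (lf (y + Pi.single i 1))‖ -
      ‖u (lf (y - Pi.single i 1))‖) =
        2 * ‖u (lf y)‖ - (‖u (lf y + Pi.single i 1)‖ + ‖u (lf y - Pi.single i 1)‖) := fun i => by
      rw [ha i, hs i]; ring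
    rw [Finset.sum_congr rfl fun i _ => this i, Finset.sum_sub_distrib, Finset.sum_const,
      Finset.card_univ, Fintype.card_fin, nsmul_eq_mul]
    ring
  rw [h2]
  have h3 := h (lf y)
  unfold Hg at h3
  have h4 : ((lam * ω (lf y) - E : ℝ) : ℂ) * u (lf y) =
      ∑ i : Fin d, (u (lf y + Pi.single i 1) + u (lf y - Pi.single i 1)) := by
    push_cast at h3 ⊢
    linear_combination h3
  have h5 : ‖∑ i : Fin d, (u (lf y + Pi.single i 1) + u (lf y - Pi.single i 1))‖ ≤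
      ∑ i : Fin d, (‖u (lf y + Pi.single i 1)‖ + ‖u (lf y - Pi.single i 1)‖) :=
    (norm_sum_le _ _).trans (Finset.sum_le_sum fun i _ => norm_add_le _ _)
  rw [← h4, norm_mul, Complex.norm_real, Real.norm_eq_abs] at h5
  have h6 : (lam * ω (lf y) - E) * ‖u (lf y)‖ ≤ |lam * ω (lf y) - E| * ‖u (lf y)‖ :=
    mul_le_mul_of_nonneg_right (le_abs_self _) (norm_nonneg _)
  linarith

/-- pointwise bound for the eigenfunctions on the lattice -/
theorem lattice (d : ℕ) (hd : 4 ≤ d) : ∃ C : ℝ, 1 ≤ C ∧ ∀ (L : ℕ) [NeZero L] (lam E0 E : ℝ)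
    (ω : Zd d → ℝ) (ψ : T d L → ℝ) (R : ℝ) (x : Zd d), 1 ≤ R →
    2 * (‖x‖ + 3 * R + 1) < L → (∀ x, 1 ≤ ψ x ∧ ψ x ≤ 2) →
    (∀ y, Hop lam (fun y => ω (lf y)) ψ y = E0 * ψ y) → 2 * d + E - E0 ≤ 2 / R ^ 2 →
    ∀ u : Zd d → ℂ, IsGen (-1) (fun x => lam * ω x) E u → L2f u →
      ‖u x‖ ^ 2 ≤ C / R ^ d * ∑' y, ‖u y‖ ^ 2 := by
  obtain ⟨C, hC, H⟩ := point d hd
  refine ⟨C, hC, ?_⟩
  intro L _ lam E0 E ω ψ R x hR hL hψ heig hE u hu hL2
  have hx0 := norm_nonneg x
  -- the torus point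
  set z : T d L := fun i => (x i : ZMod L) with hz
  have hxi : ∀ i, ((x i).natAbs : ℝ) ≤ ‖x‖ := by
    intro i
    have h1 := norm_le_pi_norm x i
    rw [← LO.Em.natAbs_norm] at h1
    exact h1
  have hzi : ∀ i, (z i).valMinAbs = x i := by
    intro i
    rw [ZMod.valMinAbs_spec]
    refine ⟨rfl, ?_⟩
    have h2 : 2 * ((x i).natAbs : ℝ) < L := by linarith [hxi i]
    have h3 : 2 * (x i).natAbs < L := by exact_mod_cast h2
    rw [Set.mem_Ioc]
    omega
  have hlz : lf z = x := funext hzi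
  have h1 := H L lam E0 (2 * d + E) (fun y => ω (lf y)) ψ (fun y => ‖u (lf y)‖) z R hR
    (by linarith) hψ heig (fun y => norm_nonneg _) hE (by
      intro y hy
      have hy2 : ∀ i, (((y i).valMinAbs).natAbs : ℝ) ≤ ‖x‖ + 3 * R := by
        intro i
        have e1 := valMinAbs_add_le (y i - z i) (z i)
        rw [sub_add_cancel, hzi i] at e1
        have e2 := (nd_le_iff z y (nd z y)).1 le_rfl i
        have e3 : (((y i).valMinAbs).natAbs : ℝ) ≤ nd z y + (x i).natAbs := by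
          exact_mod_cast e1.trans (by omega)
        linarith [hxi i]
      exact hop_norm lam E ω u y hu (lf_add y _ hy2 hL) (lf_sub y _ hy2 hL))
  have h2 : ∑ y : T d L, ‖u (lf y)‖ ^ 2 ≤ ∑' y, ‖u y‖ ^ 2 := by
    rw [← tsum_fintype (L := .unconditional _)]
    exact tsum_comp_le_tsum_of_inj hL2 (fun y => by positivity) lf_inj
  rw [hlz] at h1
  exact h1.trans (mul_le_mul_of_nonneg_left h2 (by positivity))

/-- pointwise bound for the eigenfunctions on the torus -/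
theorem torus (d : ℕ) (hd : 4 ≤ d) : ∃ C : ℝ, 1 ≤ C ∧ ∀ (L : ℕ) [NeZero L] (lam E0 E : ℝ)
    (V ψ : T d L → ℝ) (R : ℝ), 1 ≤ R → R ≤ L → (∀ x, 1 ≤ ψ x ∧ ψ x ≤ 2) →
    (∀ y, Hop lam V ψ y = E0 * ψ y) → E - E0 ≤ 2 / R ^ 2 →
    ∀ u : T d L → ℝ, (∀ x, Hop lam V u x = E * u x) →
      ∀ x, u x ^ 2 ≤ C / R ^ d * ∑ y, u y ^ 2 := by
  obtain ⟨C, hC, H⟩ := point d hd
  refine ⟨C, hC, ?_⟩
  intro L _ lam E0 E V ψ R hR hRL hψ heig hE u hu x
  have h1 := H L lam E0 E V ψ (fun y => |u y|) x R hR hRL hψ heig (fun y => abs_nonneg _) hE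
    (fun y _ => hop_abs lam E V u y (hu y))
  simp only [sq_abs] at h1
  exact h1

end Pool.Agent.H695R3.AN
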